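import Pool.Agent.Run7.h414.DP.Eng
import Pool.Agent.R459.Eq18

/-!
# Koblitz counts for random curves `y² = x³ + a x + n` whose coefficients are random integers with determinantal digits

The digits of the random integer `v` are given by a determinantal random set `S` of positions (a determinantal point process
with an arbitrary Hermitian kernel): the digit number `i` is `y i` if `i ∈ S` and `x i ≠ y i` otherwise. Examples (their
existence is not used and not formalised): the edges of a uniform spanning tree of a graph with `k` edges; stationary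
determinantal processes with any symbol which is not almost everywhere `0` or almost everywhere `1` (for example the discrete
sine process with any density); independent digits; and all the events for such processes whose probability is at least
`1 / k ^ t`, for example a prescribed number of elements of `S`.

Definitions used (in `Pool.Agent.Run7.h414.DP.Law`, `Pool.Agent.Run7.h414.DP.Fam` and `Pool.Agent.Run7.h414.DP.Alm`):
`DetLaw`, `GoodPos`, `DetDigits`, `AlmostD`.

Method: the characteristic function is `det (1 + D A)`; the inequality `|det N|² ≤ exp (tr N* N - k)` for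
`N = 1 + B D B*`, `A = B* B`, bounds it by `exp (- E)` with an energy `E` which is at least a constant times the number of
the places where the frequency is far from the rational numbers with small denominators. The passage to sums over primes of functions of residues is from the starting files (`Pool.Agent.R459.Eq`,
`Pool.Agent.N794.CG`), and in `Pool.Agent.W263.BSD`: `pointCount a n p` is the number of the solutions of
`y² = x³ + a x + n` modulo `p`, `GoodPrime a n p`: `p` is a prime which does not divide `2 (4 a³ + 27 n²)`.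
-/

set_option autoImplicit false

namespace Pool.Agent.Results.MP_b89fd0_nt.DeterminantalFamilies

open Finset Filter Pool.Agent.R459.Eq Pool.Agent.N794.CG
open Pool.Agent.W263.BSD (GoodPrime pointCount)
open Pool.Agent.Run7.h414.DP (DetDigits AlmostD almostD_of two_det fine_det det_nonneg)

/-- `p` is a prime of good reduction of `y² = x³ + a x + n`, and `#E(F_p) / t` is a prime. -/
def PrimeOrder (t p : ℕ) (a n : ℤ) : Prop := GoodPrime a n p ∧ ∃ q : ℕ, q.Prime ∧ pointCount a n p + 1 = t * q

open Classical in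
/-- The number `π_{E, t}(x)` of the primes `p ≤ x` of good reduction of `E : y² = x³ + a x + n` for which `#E(F_p) / t` is a prime. -/
noncomputable def koblitz (a n : ℤ) (t x : ℕ) : ℕ := ((range (x + 1)).filter (fun p => PrimeOrder t p a n)).card

open Classical in
/-- The sum over the primes `p ≤ x` of the proportion of the residues `ν` modulo `p` for which `p` is a prime of good reduction
of `y² = x³ + a x + ν` with `#E(F_p) / t` a prime. -/
noncomputable def model (a : ℤ) (t x : ℕ) : ℝ :=
  ∑ p ∈ (range (x + 1)).filter Nat.Prime, (((range p).filter (fun ν : ℕ => PrimeOrder t p a ν)).card : ℝ) / p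

open Classical in
/-- The sum over the primes `p ≤ x` of the proportion of the pairs `(α, ν)` of residues modulo `p` for which `p` is a prime of
good reduction of `y² = x³ + α x + ν` with `#E(F_p) / t` a prime. -/
noncomputable def modelPairs (t x : ℕ) : ℝ :=
  ∑ p ∈ (range (x + 1)).filter Nat.Prime,
    (((range p ×ˢ range p).filter (fun z : ℕ × ℕ => PrimeOrder t p z.1 z.2)).card : ℝ) / (p : ℝ) ^ 2

lemma pri_eq (x : ℕ) [DecidablePred Nat.Prime] : (range (x + 1)).filter Nat.Prime = pri x := by
  unfold pri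
  congr!

lemma koblitz_eq (a n : ℤ) (t x : ℕ) : koblitz a n t x = cntR (PrimeOrder t) a n x := by
  classical
  unfold koblitz cntR
  congr 1
  ext p
  simp only [mem_filter, mem_range, mem_pri]
  constructor
  · rintro ⟨h1, h2⟩
    exact ⟨⟨by omega, h2.1.1⟩, h2⟩
  · rintro ⟨h1, h2⟩
    exact ⟨by omega, h2⟩

lemma model_eq (a : ℤ) (t x : ℕ) : model a t x = ∑ p ∈ pri x, Pool.Agent.R459.Eq.dens (PrimeOrder t) a p := by
  classical
  unfold model Pool.Agent.R459.Eq.dens
  rw [pri_eq]

lemma modelPairs_eq (t x : ℕ) : modelPairs t x = ∑ p ∈ pri x, dens2 (PrimeOrder t) p := by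
  classical
  unfold modelPairs dens2
  rw [pri_eq]

lemma order_per (t p : ℕ) (hp : p.Prime) (a a' n n' : ℤ) (h : (p : ℤ) ∣ a - a') (h' : (p : ℤ) ∣ n - n') :
    PrimeOrder t p a n ↔ PrimeOrder t p a' n' := by
  have e1 : ((a : ℤ) : ZMod p) = ((a' : ℤ) : ZMod p) := by
    rw [← sub_eq_zero, ← Int.cast_sub, ZMod.intCast_zmod_eq_zero_iff_dvd]
    exact h
  have e2 : ((n : ℤ) : ZMod p) = ((n' : ℤ) : ZMod p) := by
    rw [← sub_eq_zero, ← Int.cast_sub, ZMod.intCast_zmod_eq_zero_iff_dvd]
    exact h'
  have h1 : GoodPrime a n p ↔ GoodPrime a' n' p := by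
    unfold GoodPrime
    rw [← ZMod.intCast_zmod_eq_zero_iff_dvd, ← ZMod.intCast_zmod_eq_zero_iff_dvd]
    push_cast
    rw [e1, e2]
  have h2 : pointCount a n p = pointCount a' n' p := by
    unfold pointCount
    rw [e1, e2]
  unfold PrimeOrder
  rw [h1, h2]

lemma order_few (p : ℕ) (hp : p.Prime) (a n : ℤ) (Q : Finset ℕ) (hQ : ∀ j ∈ Q, PrimeOrder j p a n) : Q.card ≤ Nat.log 2 p + 3 := by
  rcases Q.eq_empty_or_nonempty with h | ⟨j₀, hj₀⟩
  · rw [h, card_empty]
    omega
  have hgood := (hQ j₀ hj₀).1
  obtain ⟨m, hm⟩ : ∃ m, m = pointCount a n p + 1 := ⟨_, rfl⟩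
  have hm4 : m ≤ 4 * p := by
    haveI : Fact p.Prime := ⟨hp⟩
    have hp2 : p ≠ 2 := by
      intro h2
      apply hgood.2
      rw [h2]
      exact Dvd.intro _ rfl
    have h1 := Pool.Agent.R459.Bsd.pc_eq hp2 a n
    have h2 := Pool.Agent.R459.Bsd.tr_abs hp2 (a : ZMod p) (n : ZMod p)
    rw [← h1] at h2
    rw [abs_le] at h2
    have hp1 : (1 : ℝ) ≤ p := by exact_mod_cast hp.one_le
    have h3 : √(p : ℝ) ≤ p := by
      rw [Real.sqrt_le_left (by linarith)]
      nlinarith
    have h4 : (m : ℝ) ≤ 4 * p := by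
      rw [hm]
      push_cast
      linarith [h2.1]
    exact_mod_cast h4
  have hm1 : m ≠ 0 := by omega
  have h1 : Q.card ≤ m.primeFactors.card := by
    apply card_le_card_of_injOn (fun j => m / j)
    · intro j hj
      obtain ⟨q, hq, hjq⟩ := (hQ j (mem_coe.1 hj)).2
      rw [← hm] at hjq
      have hj0 : 0 < j := Nat.pos_of_ne_zero (by rintro rfl; omega)
      have e : m / j = q := by rw [hjq]; exact Nat.mul_div_cancel_left q hj0
      simp only [mem_coe, Nat.mem_primeFactors, ne_eq]
      rw [e]
      exact ⟨hq, ⟨j, by rw [hjq]; ring⟩, hm1⟩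
    · intro j hj j' hj' h
      obtain ⟨q, hq, hjq⟩ := (hQ j (mem_coe.1 hj)).2
      obtain ⟨q', hq', hjq'⟩ := (hQ j' (mem_coe.1 hj')).2
      rw [← hm] at hjq hjq'
      have hj0 : 0 < j := Nat.pos_of_ne_zero (by rintro rfl; omega)
      have hj0' : 0 < j' := Nat.pos_of_ne_zero (by rintro rfl; omega)
      have e : m / j = q := by rw [hjq]; exact Nat.mul_div_cancel_left q hj0
      have e' : m / j' = q' := by rw [hjq']; exact Nat.mul_div_cancel_left q' hj0'
      simp only at h
      rw [e, e'] at h
      rw [h] at hjq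
      rw [hjq] at hjq'
      exact Nat.eq_of_mul_eq_mul_right hq'.pos hjq'
  have h2 : 2 ^ m.primeFactors.card ≤ m := by
    calc 2 ^ m.primeFactors.card ≤ ∏ q ∈ m.primeFactors, q :=
          Finset.pow_card_le_prod _ _ _ fun q hq => (Nat.prime_of_mem_primeFactors hq).two_le
      _ ≤ m := Nat.le_of_dvd (by omega) (Nat.prod_primeFactors_dvd m)
  have h3 : m.primeFactors.card ≤ Nat.log 2 m := Nat.le_log_of_pow_le (by norm_num) h2
  have h4 : Nat.log 2 m ≤ Nat.log 2 p + 2 := by
    calc Nat.log 2 m ≤ Nat.log 2 (p * 2 * 2) := Nat.log_mono_right (by omega)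
      _ = Nat.log 2 p + 2 := by
        rw [Nat.log_mul_base (by norm_num) (by have := hp.pos; omega), Nat.log_mul_base (by norm_num) hp.ne_zero]
  omega

/-- **Koblitz counts for random curves with determinantal digits.** Let `b ≥ 2`, `L` and `η > 0` be fixed. Let `0 < δ ≤ 1 / 2`.
There is `W` such that for `κ ≠ 0` and all sufficiently large `X` the following holds for all `t₀`, `k`, all `w` which are
dominated, up to the factor `k ^ t₀`, by the distribution of an integer with `k` determinantal digits
(`DetDigits b L η t₀ k w`) and all `c`.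

(1) For EVERY integer `a`: up to a `w`-weight of at most `2 k ^ t₀ X ^ (- δ / 2)` of the `v < b ^ k` the integer `n = c + κ v`
satisfies for ALL `x ≥ X` with `x ^ W ≤ b ^ k`: for ALL `t ≤ x`, the number of the primes `p ≤ x` of good reduction of
`E : y² = x³ + a x + n` with `#E(F_p) / t` prime differs from the sum `S` over `p ≤ x` of the proportion of the residues `ν`
modulo `p` such that `y² = x³ + a x + ν` has this property by at most `x ^ (1 / 2 + δ)`, and for `t ≤ x ^ (δ / 2)` even by at
most `x ^ δ (max 1 S') ^ (1 / 2)`, `S'` the same sum over `p ≤ 2 x`.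

(2) Up to a `w`-weight of at most `2 k ^ t₀ X ^ (- δ / 2)` the integer `a = c + κ v` satisfies the same for the difference of
`S` and the sum over `p ≤ x` of the proportion of the PAIRS of coefficients modulo `p` with this property. -/
theorem result (b L : ℕ) (hb : 2 ≤ b) (η : ℝ) (hη : 0 < η) (δ : ℝ) (hδ : 0 < δ) (hδ1 : δ ≤ 1 / 2) : ∃ W : ℕ, 1 ≤ W ∧
    ∀ κ : ℤ, κ ≠ 0 → ∃ X₀ : ℕ, ∀ X : ℕ, X₀ ≤ X → ∀ (t₀ k : ℕ) (w : ℕ → ℝ), DetDigits b L η t₀ k w → ∀ c : ℤ,
    (∀ a : ℤ, AlmostD b k w κ c ((k : ℝ) ^ t₀ * (2 * (X : ℝ) ^ (-(δ / 2)))) (fun n => ∀ x : ℕ, X ≤ x → x ^ W ≤ b ^ k →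
      (∀ t : ℕ, t ≤ x → |(koblitz a n t x : ℝ) - model a t x| ≤ (x : ℝ) ^ (1 / 2 + δ)) ∧
      (∀ t : ℕ, (t : ℝ) ≤ (x : ℝ) ^ (δ / 2) →
        |(koblitz a n t x : ℝ) - model a t x| ≤ √(max 1 (model a t (2 * x))) * (x : ℝ) ^ δ))) ∧
    AlmostD b k w κ c ((k : ℝ) ^ t₀ * (2 * (X : ℝ) ^ (-(δ / 2)))) (fun a => ∀ x : ℕ, X ≤ x → x ^ W ≤ b ^ k →
      (∀ t : ℕ, t ≤ x → |model a t x - modelPairs t x| ≤ (x : ℝ) ^ (1 / 2 + δ)) ∧
      (∀ t : ℕ, (t : ℝ) ≤ (x : ℝ) ^ (δ / 2) →
        |model a t x - modelPairs t x| ≤ √(max 1 (modelPairs t (2 * x))) * (x : ℝ) ^ δ)) := by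
  obtain ⟨W, hW, H⟩ := two_det δ hδ hδ1 b L hb η hη
  refine ⟨W, hW, fun κ hκ => ?_⟩
  obtain ⟨X₀, J⟩ := H κ hκ
  refine ⟨X₀, fun X hX t₀ k w hw c => ?_⟩
  obtain ⟨h1, h2⟩ := J X hX t₀ k w hw c PrimeOrder order_per order_few
  constructor
  · intro a
    refine almostD_of (h1 a) ?_
    intro n hn x hXx hxW
    obtain ⟨g1, g2⟩ := hn x hXx hxW
    constructor
    · intro t ht
      rw [koblitz_eq, model_eq]
      exact g1 t ht
    · intro t ht
      rw [koblitz_eq, model_eq, model_eq]
      exact g2 t ht
  · refine almostD_of h2 ?_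
    intro a hn x hXx hxW
    obtain ⟨g1, g2⟩ := hn x hXx hxW
    constructor
    · intro t ht
      rw [model_eq, modelPairs_eq]
      exact g1 t ht
    · intro t ht
      rw [model_eq, modelPairs_eq, modelPairs_eq]
      exact g2 t ht

end Pool.Agent.Results.MP_b89fd0_nt.DeterminantalFamilies
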