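import Pool.Agent.Run7.h582.FM.Eg3
import Pool.Agent.R459.Bsd4

/-!
# Koblitz counts for all the curves whose coefficients are near `lam n * x + c n`, for almost every `x` of all measures with Fourier decay

`koblitz a b t X` is the number of the primes `p ≤ X` of good reduction of `E : y² = x³ + a x + b` for which `#E(F_p) / t` is a
prime. Let `N n ≥ exp (n ^ η)`, and let `lam n`, `c n` be real numbers with `N n / log ^ T (N n) ≤ lam n ≤ B N n` and
`|c n| ≤ B N n`. The theorem is about the curves whose coefficient `b`, or both coefficients, are ANY integers at a distance of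
at most `log ^ V (N n)` from `lam n * x + c n`, for all large `n` and almost every real number `x` with respect to EVERY finite
Borel measure with bounded support whose Fourier transform is `O (|ξ| ^ (-δ'))` for some `δ' > 0`. Thus the exceptional sets of
`x` have Fourier dimension zero.

Method: a measure with polynomial Fourier decay is replaced by finite families of real numbers with the same exponential
sums (`Pool.Agent.Run7.h582.FM`); the characteristic functions of the integer parts of the members decay at all frequencies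
with many binary digits far from those of an integer (with the theorem on integer parts of helper193, `Pool.Agent.N193.PS`);
from there the passage to sums over primes of functions of residues is from the starting files (`Pool.Agent.R459.Eq`, and
helper794's form of it, `Pool.Agent.N794.CG`), and then the lemma of Borel and Cantelli is used.
-/

set_option autoImplicit false
set_option maxHeartbeats 4000000

namespace Pool.Agent.Results.MP_b89fd0_nt.FourierDecayCurves

open Finset Filter MeasureTheory Pool.Agent.R459.Eq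
open Pool.Agent.W263.BSD (GoodPrime pointCount)

/-- `N n ≥ exp (n ^ η)`, `|c n| ≤ B N n` and `N n / log ^ T (N n) ≤ lam n ≤ B N n` for large `n`. -/
def Scales (η : ℝ) (B T : ℕ) (N : ℕ → ℕ) (lam c : ℕ → ℝ) : Prop :=
  ∀ᶠ n : ℕ in atTop, Real.exp ((n : ℝ) ^ η) ≤ N n ∧ |c n| ≤ B * N n ∧ lam n ≤ B * N n ∧
    (N n : ℝ) ≤ lam n * Real.log (N n) ^ T

/-- The distance of the integer `q` from the real number `y` is at most `log ^ V N`. -/
def Near (V N : ℕ) (y : ℝ) (q : ℤ) : Prop := |(q : ℝ) - y| ≤ Real.log N ^ V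

/-- The range of the bounds for the primes: `log ^ L N ≤ X ≤ N ^ (1 / W)`. -/
def InRange (L W N X : ℕ) : Prop := Real.log N ^ L ≤ X ∧ (X : ℝ) ^ W ≤ N

/-- `μ` is a finite Borel measure with bounded support and its Fourier transform `ξ ↦ ∫ exp (i ξ t) dμ (t)` is
`O (|ξ| ^ (-δ))` for some `δ > 0`. -/
def FourierDecay (μ : Measure ℝ) : Prop :=
  IsFiniteMeasure μ ∧ (∃ R : ℝ, μ (Set.Icc (-R) R)ᶜ = 0) ∧ ∃ C δ : ℝ, 0 < δ ∧ ∀ ξ : ℝ, ξ ≠ 0 →
    ‖∫ t : ℝ, Complex.exp (((ξ * t : ℝ) : ℂ) * Complex.I) ∂μ‖ ≤ C * |ξ| ^ (-δ)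

/-- `p` is a prime of good reduction of `y² = x³ + a x + n`, and `#E(F_p) / t` is a prime. -/
def PrimeOrder (t p : ℕ) (a n : ℤ) : Prop := GoodPrime a n p ∧ ∃ q : ℕ, q.Prime ∧ pointCount a n p + 1 = t * q

open Classical in
/-- The number `π_{E, t}(x)` of the primes `p ≤ x` of good reduction of `E : y² = x³ + a x + n` for which `#E(F_p) / t` is a prime. -/
noncomputable def koblitz (a n : ℤ) (t x : ℕ) : ℕ := ((range (x + 1)).filter (fun p => PrimeOrder t p a n)).card

open Classical in
/-- The sum over the primes `p ≤ x` of the proportion of the residues `ν` modulo `p` for which `p` is a prime of good reduction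
of `y² = x³ + a x + ν` with `#E(F_p) / t` a prime. -/
noncomputable def model (a : ℤ) (t x : ℕ) : ℝ :=
  ∑ p ∈ (range (x + 1)).filter Nat.Prime, (((range p).filter (fun ν : ℕ => PrimeOrder t p a ν)).card : ℝ) / p

open Classical in
/-- The sum over the primes `p ≤ x` of the proportion of the pairs `(α, ν)` of residues modulo `p` for which `p` is a prime of
good reduction of `y² = x³ + α x + ν` with `#E(F_p) / t` a prime. -/
noncomputable def modelPairs (t x : ℕ) : ℝ :=
  ∑ p ∈ (range (x + 1)).filter Nat.Prime,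
    (((range p ×ˢ range p).filter (fun z : ℕ × ℕ => PrimeOrder t p z.1 z.2)).card : ℝ) / (p : ℝ) ^ 2

lemma pri_eq (x : ℕ) [DecidablePred Nat.Prime] : (range (x + 1)).filter Nat.Prime = pri x := by
  unfold pri
  congr!

lemma koblitz_eq (a n : ℤ) (t x : ℕ) : koblitz a n t x = cntR (PrimeOrder t) a n x := by
  classical
  unfold koblitz cntR
  congr 1
  ext p
  simp only [mem_filter, mem_range, mem_pri]
  constructor
  · rintro ⟨h1, h2⟩
    exact ⟨⟨by omega, h2.1.1⟩, h2⟩
  · rintro ⟨h1, h2⟩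
    exact ⟨by omega, h2⟩

lemma model_eq (a : ℤ) (t x : ℕ) : model a t x = ∑ p ∈ pri x, Pool.Agent.R459.Eq.dens (PrimeOrder t) a p := by
  classical
  unfold model Pool.Agent.R459.Eq.dens
  rw [pri_eq]

lemma modelPairs_eq (t x : ℕ) : modelPairs t x = ∑ p ∈ pri x, dens2 (PrimeOrder t) p := by
  classical
  unfold modelPairs dens2
  rw [pri_eq]

lemma order_per (t p : ℕ) (hp : p.Prime) (a a' n n' : ℤ) (h : (p : ℤ) ∣ a - a') (h' : (p : ℤ) ∣ n - n') :
    PrimeOrder t p a n ↔ PrimeOrder t p a' n' := by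
  have e1 : ((a : ℤ) : ZMod p) = ((a' : ℤ) : ZMod p) := by
    rw [← sub_eq_zero, ← Int.cast_sub, ZMod.intCast_zmod_eq_zero_iff_dvd]
    exact h
  have e2 : ((n : ℤ) : ZMod p) = ((n' : ℤ) : ZMod p) := by
    rw [← sub_eq_zero, ← Int.cast_sub, ZMod.intCast_zmod_eq_zero_iff_dvd]
    exact h'
  have h1 : GoodPrime a n p ↔ GoodPrime a' n' p := by
    unfold GoodPrime
    rw [← ZMod.intCast_zmod_eq_zero_iff_dvd, ← ZMod.intCast_zmod_eq_zero_iff_dvd]
    push_cast
    rw [e1, e2]
  have h2 : pointCount a n p = pointCount a' n' p := by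
    unfold pointCount
    rw [e1, e2]
  unfold PrimeOrder
  rw [h1, h2]

lemma order_few (p : ℕ) (hp : p.Prime) (a n : ℤ) (Q : Finset ℕ) (hQ : ∀ j ∈ Q, PrimeOrder j p a n) : Q.card ≤ Nat.log 2 p + 3 := by
  rcases Q.eq_empty_or_nonempty with h | ⟨j₀, hj₀⟩
  · rw [h, card_empty]
    omega
  have hgood := (hQ j₀ hj₀).1
  obtain ⟨m, hm⟩ : ∃ m, m = pointCount a n p + 1 := ⟨_, rfl⟩
  have hm4 : m ≤ 4 * p := by
    haveI : Fact p.Prime := ⟨hp⟩
    have hp2 : p ≠ 2 := by
      intro h2
      apply hgood.2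
      rw [h2]
      exact Dvd.intro _ rfl
    have h1 := Pool.Agent.R459.Bsd.pc_eq hp2 a n
    have h2 := Pool.Agent.R459.Bsd.tr_abs hp2 (a : ZMod p) (n : ZMod p)
    rw [← h1] at h2
    rw [abs_le] at h2
    have hp1 : (1 : ℝ) ≤ p := by exact_mod_cast hp.one_le
    have h3 : √(p : ℝ) ≤ p := by
      rw [Real.sqrt_le_left (by linarith)]
      nlinarith
    have h4 : (m : ℝ) ≤ 4 * p := by
      rw [hm]
      push_cast
      linarith [h2.1]
    exact_mod_cast h4
  have hm1 : m ≠ 0 := by omega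
  have h1 : Q.card ≤ m.primeFactors.card := by
    apply card_le_card_of_injOn (fun j => m / j)
    · intro j hj
      obtain ⟨q, hq, hjq⟩ := (hQ j (mem_coe.1 hj)).2
      rw [← hm] at hjq
      have hj0 : 0 < j := Nat.pos_of_ne_zero (by rintro rfl; omega)
      have e : m / j = q := by rw [hjq]; exact Nat.mul_div_cancel_left q hj0
      simp only [mem_coe, Nat.mem_primeFactors, ne_eq]
      rw [e]
      exact ⟨hq, ⟨j, by rw [hjq]; ring⟩, hm1⟩
    · intro j hj j' hj' h
      obtain ⟨q, hq, hjq⟩ := (hQ j (mem_coe.1 hj)).2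
      obtain ⟨q', hq', hjq'⟩ := (hQ j' (mem_coe.1 hj')).2
      rw [← hm] at hjq hjq'
      have hj0 : 0 < j := Nat.pos_of_ne_zero (by rintro rfl; omega)
      have hj0' : 0 < j' := Nat.pos_of_ne_zero (by rintro rfl; omega)
      have e : m / j = q := by rw [hjq]; exact Nat.mul_div_cancel_left q hj0
      have e' : m / j' = q' := by rw [hjq']; exact Nat.mul_div_cancel_left q' hj0'
      simp only at h
      rw [e, e'] at h
      rw [h] at hjq
      rw [hjq] at hjq'
      exact Nat.eq_of_mul_eq_mul_right hq'.pos hjq'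
  have h2 : 2 ^ m.primeFactors.card ≤ m := by
    calc 2 ^ m.primeFactors.card ≤ ∏ q ∈ m.primeFactors, q :=
          Finset.pow_card_le_prod _ _ _ fun q hq => (Nat.prime_of_mem_primeFactors hq).two_le
      _ ≤ m := Nat.le_of_dvd (by omega) (Nat.prod_primeFactors_dvd m)
  have h3 : m.primeFactors.card ≤ Nat.log 2 m := Nat.le_log_of_pow_le (by norm_num) h2
  have h4 : Nat.log 2 m ≤ Nat.log 2 p + 2 := by
    calc Nat.log 2 m ≤ Nat.log 2 (p * 2 * 2) := Nat.log_mono_right (by omega)
      _ = Nat.log 2 p + 2 := by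
        rw [Nat.log_mul_base (by norm_num) (by have := hp.pos; omega), Nat.log_mul_base (by norm_num) hp.ne_zero]
  omega

lemma rel : Pool.Agent.Run7.h582.FM.Rel PrimeOrder := ⟨order_per, order_few⟩

/-- Let `0 < δ ≤ 1 / 2`.

**(1)** For every measure `μ` with `FourierDecay μ` there is `W` such that for all `η > 0`, `V`, `M` there is `L` with the
following property. Let sequences with `Scales η B T N lam c` be given, and for every `n` at most `log ^ M (N n)` arbitrary
integers `a n l`. For almost every real number `x` with respect to `μ`, for all large `n`: for ALL the integers `b` at a distance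
of at most `log ^ V (N n)` from `lam n * x + c n`, all the `a = a n l`, ALL `X` with `log ^ L (N n) ≤ X` and `X ^ W ≤ N n` and ALL
`t ≤ X`, the number of the primes `p ≤ X` of good reduction of `E : y² = x³ + a x + b` with `#E(F_p) / t` prime differs from the
sum over `p ≤ X` of the proportion of the residues `ν` modulo `p` such that `y² = x³ + a x + ν` has this property by at most
`X ^ (1 / 2 + δ)`.

**(2)** For all measures `μ₁`, `μ₂` with `FourierDecay` there is `W` such that for all `η > 0`, `V` there is `L` with the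
following property. Let `Scales η B T N lam c` and `Scales η B T N lam' c'`. For `μ₁`-almost every `x₁` and `μ₂`-almost every
`x₂`, for all large `n`: for ALL the integers `a` at a distance of at most `log ^ V (N n)` from `lam n * x₁ + c n` and ALL the
integers `b` at a distance of at most `log ^ V (N n)` from `lam' n * x₂ + c' n`, ALL `X` with `log ^ L (N n) ≤ X` and
`X ^ W ≤ N n` and ALL `t ≤ X`, the number differs from the sum over `p ≤ X` of the proportion of the PAIRS of coefficients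
modulo `p` with the property by at most `2 X ^ (1 / 2 + δ)`. -/
theorem result (δ : ℝ) (hδ : 0 < δ) (hδ1 : δ ≤ 1 / 2) :
    (∀ μ : Measure ℝ, FourierDecay μ → ∃ W : ℕ, 1 ≤ W ∧ ∀ η : ℝ, 0 < η → ∀ V M : ℕ, ∃ L : ℕ,
      ∀ (B T : ℕ) (N : ℕ → ℕ) (lam c : ℕ → ℝ), Scales η B T N lam c →
      ∀ (m : ℕ → ℕ) (a : ∀ n, Fin (m n) → ℤ), (∀ᶠ n : ℕ in atTop, (m n : ℝ) ≤ Real.log (N n) ^ M) →
      ∀ᵐ x ∂μ, ∀ᶠ n : ℕ in atTop, ∀ b : ℤ, Near V (N n) (lam n * x + c n) b → ∀ l, ∀ X : ℕ, InRange L W (N n) X →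
        ∀ t : ℕ, t ≤ X → |(koblitz (a n l) b t X : ℝ) - model (a n l) t X| ≤ (X : ℝ) ^ (1 / 2 + δ)) ∧
    (∀ μ₁ μ₂ : Measure ℝ, FourierDecay μ₁ → FourierDecay μ₂ → ∃ W : ℕ, 1 ≤ W ∧ ∀ η : ℝ, 0 < η → ∀ V : ℕ, ∃ L : ℕ,
      ∀ (B T : ℕ) (N : ℕ → ℕ) (lam c lam' c' : ℕ → ℝ), Scales η B T N lam c → Scales η B T N lam' c' →
      ∀ᵐ x₁ ∂μ₁, ∀ᵐ x₂ ∂μ₂, ∀ᶠ n : ℕ in atTop, ∀ a b : ℤ, Near V (N n) (lam n * x₁ + c n) a →
        Near V (N n) (lam' n * x₂ + c' n) b → ∀ X : ℕ, InRange L W (N n) X →
        ∀ t : ℕ, t ≤ X → |(koblitz a b t X : ℝ) - modelPairs t X| ≤ 2 * (X : ℝ) ^ (1 / 2 + δ)) := by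
  constructor
  · intro μ hμ
    obtain ⟨W, hW, H⟩ := Pool.Agent.Run7.h582.FM.ae_first δ hδ hδ1 μ hμ
    refine ⟨W, hW, fun η hη V M => ?_⟩
    obtain ⟨L, hL⟩ := H η hη V M
    refine ⟨L, fun B T N lam c hS m a hm => ?_⟩
    filter_upwards [hL B T N lam c hS m (fun _ _ => PrimeOrder) a (fun _ _ => rel) hm] with x hx
    filter_upwards [hx] with n hn b hb l X hX t ht
    rw [koblitz_eq, model_eq]
    exact (hn b hb l X hX.1 hX.2).1 t ht
  · intro μ₁ μ₂ hμ₁ hμ₂
    obtain ⟨W, hW, H⟩ := Pool.Agent.Run7.h582.FM.ae_pairs δ hδ hδ1 μ₁ μ₂ hμ₁ hμ₂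
    refine ⟨W, hW, fun η hη V => ?_⟩
    obtain ⟨L, hL⟩ := H η hη V
    refine ⟨L, fun B T N lam c lam' c' hS hS' => ?_⟩
    filter_upwards [hL B T N lam c lam' c' hS hS' (fun _ => PrimeOrder) (fun _ => rel)] with x₁ h1
    filter_upwards [h1] with x₂ h2
    filter_upwards [h2] with n hn a b ha hb X hX t ht
    rw [koblitz_eq, modelPairs_eq]
    exact (hn a b ha hb X hX.1 hX.2).1 t ht

end Pool.Agent.Results.MP_b89fd0_nt.FourierDecayCurves
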