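import Pool.Agent.Run7.h710.TR.E
import Pool.Agent.R459.Eq18
import Pool.Agent.R459.Bsd4

/-!
# Koblitz counts for almost all curves `y² = x³ + A x + n` whose coefficients are written by a transducer

The integers `v < a ^ k` are arbitrary, up to few exceptions; the transducer `T` reads the digits of `v` in base `a` and
writes the digits of `T(v)` in base `b` (definitions in `Pool.Agent.Run7.h710.TR.Defs`).

Method: if two words of `L` digits lead from the same state to the same state and different words are written, then the two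
parts of the exponential sum over the integers `T(v)` which belong to these words cancel in part at the places where the
frequency has a digit which is not extremal. The passage from such exponential sums to sums over primes of functions of residues, for almost
all members of a family, is from the starting library (`Pool.Agent.R459.Eq`, `Pool.Agent.N794.CG`).

Definitions used: in `Pool.Agent.W263.BSD` (file `Pool/Agent/W263/BSD/Defs.lean`): `pointCount a n p` is the number of the
solutions of `y² = x³ + a x + n` modulo `p`, `GoodPrime a n p`: `p` is a prime which does not divide `2 (4 a³ + 27 n²)`.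

Examples: the bitwise conjunction or disjunction of `v` and `m v` (the carries are the states); the integer whose digit `i`
is `f(x_i, x_{i+1}, …, x_{i+r})`, where `x_i` are the digits of `v` and `f` is not constant (one-sided cellular automata).
-/

set_option autoImplicit false

namespace Pool.Agent.Results.MP_b89fd0_nt.TransducerFamilies

open Finset Filter Pool.Agent.R459.Eq Pool.Agent.N794.CG Pool.Agent.Run7.h710.TR
open Pool.Agent.W263.BSD (GoodPrime pointCount)

/-- `p` is a prime of good reduction of `y² = x³ + a x + n`, and `#E(F_p) / t` is a prime. -/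
def PrimeOrder (t p : ℕ) (a n : ℤ) : Prop := GoodPrime a n p ∧ ∃ q : ℕ, q.Prime ∧ pointCount a n p + 1 = t * q

open Classical in
/-- The number `π_{E, t}(x)` of the primes `p ≤ x` of good reduction of `E : y² = x³ + a x + n` for which `#E(F_p) / t` is a prime. -/
noncomputable def koblitz (a n : ℤ) (t x : ℕ) : ℕ := ((range (x + 1)).filter (fun p => PrimeOrder t p a n)).card

open Classical in
/-- The sum over the primes `p ≤ x` of the proportion of the residues `ν` modulo `p` for which `p` is a prime of good reduction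
of `y² = x³ + a x + ν` with `#E(F_p) / t` a prime. -/
noncomputable def model (a : ℤ) (t x : ℕ) : ℝ :=
  ∑ p ∈ (range (x + 1)).filter Nat.Prime, (((range p).filter (fun ν : ℕ => PrimeOrder t p a ν)).card : ℝ) / p

open Classical in
/-- The sum over the primes `p ≤ x` of the proportion of the pairs `(α, ν)` of residues modulo `p` for which `p` is a prime of
good reduction of `y² = x³ + α x + ν` with `#E(F_p) / t` a prime. -/
noncomputable def modelPairs (t x : ℕ) : ℝ :=
  ∑ p ∈ (range (x + 1)).filter Nat.Prime,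
    (((range p ×ˢ range p).filter (fun z : ℕ × ℕ => PrimeOrder t p z.1 z.2)).card : ℝ) / (p : ℝ) ^ 2

lemma pri_eq (x : ℕ) [DecidablePred Nat.Prime] : (range (x + 1)).filter Nat.Prime = pri x := by
  unfold pri
  congr!

lemma koblitz_eq (a n : ℤ) (t x : ℕ) : koblitz a n t x = cntR (PrimeOrder t) a n x := by
  classical
  unfold koblitz cntR
  congr 1
  ext p
  simp only [mem_filter, mem_range, mem_pri]
  constructor
  · rintro ⟨h1, h2⟩
    exact ⟨⟨by omega, h2.1.1⟩, h2⟩
  · rintro ⟨h1, h2⟩
    exact ⟨by omega, h2⟩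

lemma model_eq (a : ℤ) (t x : ℕ) : model a t x = ∑ p ∈ pri x, Pool.Agent.R459.Eq.dens (PrimeOrder t) a p := by
  classical
  unfold model Pool.Agent.R459.Eq.dens
  rw [pri_eq]

lemma modelPairs_eq (t x : ℕ) : modelPairs t x = ∑ p ∈ pri x, dens2 (PrimeOrder t) p := by
  classical
  unfold modelPairs dens2
  rw [pri_eq]

lemma order_per (t p : ℕ) (hp : p.Prime) (a a' n n' : ℤ) (h : (p : ℤ) ∣ a - a') (h' : (p : ℤ) ∣ n - n') :
    PrimeOrder t p a n ↔ PrimeOrder t p a' n' := by
  have e1 : ((a : ℤ) : ZMod p) = ((a' : ℤ) : ZMod p) := by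
    rw [← sub_eq_zero, ← Int.cast_sub, ZMod.intCast_zmod_eq_zero_iff_dvd]
    exact h
  have e2 : ((n : ℤ) : ZMod p) = ((n' : ℤ) : ZMod p) := by
    rw [← sub_eq_zero, ← Int.cast_sub, ZMod.intCast_zmod_eq_zero_iff_dvd]
    exact h'
  have h1 : GoodPrime a n p ↔ GoodPrime a' n' p := by
    unfold GoodPrime
    rw [← ZMod.intCast_zmod_eq_zero_iff_dvd, ← ZMod.intCast_zmod_eq_zero_iff_dvd]
    push_cast
    rw [e1, e2]
  have h2 : pointCount a n p = pointCount a' n' p := by
    unfold pointCount
    rw [e1, e2]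
  unfold PrimeOrder
  rw [h1, h2]

lemma order_few (p : ℕ) (hp : p.Prime) (a n : ℤ) (Q : Finset ℕ) (hQ : ∀ j ∈ Q, PrimeOrder j p a n) : Q.card ≤ Nat.log 2 p + 3 := by
  rcases Q.eq_empty_or_nonempty with h | ⟨j₀, hj₀⟩
  · rw [h, card_empty]
    omega
  have hgood := (hQ j₀ hj₀).1
  obtain ⟨m, hm⟩ : ∃ m, m = pointCount a n p + 1 := ⟨_, rfl⟩
  have hm4 : m ≤ 4 * p := by
    haveI : Fact p.Prime := ⟨hp⟩
    have hp2 : p ≠ 2 := by
      intro h2
      apply hgood.2
      rw [h2]
      exact Dvd.intro _ rfl
    have h1 := Pool.Agent.R459.Bsd.pc_eq hp2 a n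
    have h2 := Pool.Agent.R459.Bsd.tr_abs hp2 (a : ZMod p) (n : ZMod p)
    rw [← h1] at h2
    rw [abs_le] at h2
    have hp1 : (1 : ℝ) ≤ p := by exact_mod_cast hp.one_le
    have h3 : √(p : ℝ) ≤ p := by
      rw [Real.sqrt_le_left (by linarith)]
      nlinarith
    have h4 : (m : ℝ) ≤ 4 * p := by
      rw [hm]
      push_cast
      linarith [h2.1]
    exact_mod_cast h4
  have hm1 : m ≠ 0 := by omega
  have h1 : Q.card ≤ m.primeFactors.card := by
    apply card_le_card_of_injOn (fun j => m / j)
    · intro j hj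
      obtain ⟨q, hq, hjq⟩ := (hQ j (mem_coe.1 hj)).2
      rw [← hm] at hjq
      have hj0 : 0 < j := Nat.pos_of_ne_zero (by rintro rfl; omega)
      have e : m / j = q := by rw [hjq]; exact Nat.mul_div_cancel_left q hj0
      simp only [mem_coe, Nat.mem_primeFactors, ne_eq]
      rw [e]
      exact ⟨hq, ⟨j, by rw [hjq]; ring⟩, hm1⟩
    · intro j hj j' hj' h
      obtain ⟨q, hq, hjq⟩ := (hQ j (mem_coe.1 hj)).2
      obtain ⟨q', hq', hjq'⟩ := (hQ j' (mem_coe.1 hj')).2
      rw [← hm] at hjq hjq'
      have hj0 : 0 < j := Nat.pos_of_ne_zero (by rintro rfl; omega)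
      have hj0' : 0 < j' := Nat.pos_of_ne_zero (by rintro rfl; omega)
      have e : m / j = q := by rw [hjq]; exact Nat.mul_div_cancel_left q hj0
      have e' : m / j' = q' := by rw [hjq']; exact Nat.mul_div_cancel_left q' hj0'
      simp only at h
      rw [e, e'] at h
      rw [h] at hjq
      rw [hjq] at hjq'
      exact Nat.eq_of_mul_eq_mul_right hq'.pos hjq'
  have h2 : 2 ^ m.primeFactors.card ≤ m := by
    calc 2 ^ m.primeFactors.card ≤ ∏ q ∈ m.primeFactors, q :=
          Finset.pow_card_le_prod _ _ _ fun q hq => (Nat.prime_of_mem_primeFactors hq).two_le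
      _ ≤ m := Nat.le_of_dvd (by omega) (Nat.prod_primeFactors_dvd m)
  have h3 : m.primeFactors.card ≤ Nat.log 2 m := Nat.le_log_of_pow_le (by norm_num) h2
  have h4 : Nat.log 2 m ≤ Nat.log 2 p + 2 := by
    calc Nat.log 2 m ≤ Nat.log 2 (p * 2 * 2) := Nat.log_mono_right (by omega)
      _ = Nat.log 2 p + 2 := by
        rw [Nat.log_mul_base (by norm_num) (by have := hp.pos; omega), Nat.log_mul_base (by norm_num) hp.ne_zero]
  omega

open Classical in
/-- Let `b ≥ 2`, `L ≥ 1` and `0 < δ ≤ 1 / 2`. There is `W` such that for `κ ≠ 0` and all sufficiently large `X` the following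
holds for all `k`. Let an arbitrary transducer be given which reads digits `< a` and writes digits `< b` (with finitely or infinitely many
states) such that from every state two words of `L` digits lead to the same state, while different words are written; let it
begin in an arbitrary state `s` and read from the left or from the right, and let `c` be any integer. `T(v)` is the integer which is written when `v` is read.

(1) For EVERY integer `A`, all the `v < a ^ k`, with at most `2 X ^ (- δ / 2) a ^ k` exceptions, have for ALL `x ≥ X` with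
`x ^ W ≤ b ^ k` and ALL `t ≤ x`: the number of the primes `p ≤ x` of good reduction of `E : y² = x³ + A x + n`,
`n = c + κ T(v)`, with `#E(F_p) / t` prime differs from the sum over `p ≤ x` of the proportion of the residues `ν` modulo `p`
such that `y² = x³ + A x + ν` has this property by at most `x ^ (1 / 2 + δ)`.

(2) All the `v < a ^ k`, with at most `2 X ^ (- δ / 2) a ^ k` exceptions, have, with `A = c + κ T(v)`, for ALL
`x ≥ X` with `x ^ W ≤ b ^ k` and ALL `t ≤ x`: the sum of these proportions differs from the sum over `p ≤ x` of the proportion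
of the PAIRS of coefficients modulo `p` which have this property by at most `x ^ (1 / 2 + δ)`. -/
theorem result (a b L : ℕ) (hb : 2 ≤ b) (hL : 1 ≤ L) (δ : ℝ) (hδ : 0 < δ) (hδ1 : δ ≤ 1 / 2) : ∃ W : ℕ, 1 ≤ W ∧
    ∀ κ : ℤ, κ ≠ 0 → ∃ X₀ : ℕ, ∀ X : ℕ, X₀ ≤ X → ∀ (k : ℕ) (S : Type) (τ : S → ℕ → S) (o : S → ℕ → ℕ), Transducer a b L τ o →
    ∀ (left : Bool) (s : S) (c : ℤ),
    (∀ A : ℤ, (((range (a ^ k)).filter fun v => ¬ ∀ x : ℕ, X ≤ x → x ^ W ≤ b ^ k → ∀ t : ℕ, t ≤ x →
      |(koblitz A (c + κ * (image a b τ o left k s v : ℕ)) t x : ℝ) - model A t x| ≤ (x : ℝ) ^ (1 / 2 + δ)).card : ℝ) ≤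
        2 * (X : ℝ) ^ (-(δ / 2)) * (a : ℝ) ^ k) ∧
    (((range (a ^ k)).filter fun v => ¬ ∀ x : ℕ, X ≤ x → x ^ W ≤ b ^ k → ∀ t : ℕ, t ≤ x →
      |model (c + κ * (image a b τ o left k s v : ℕ)) t x - modelPairs t x| ≤ (x : ℝ) ^ (1 / 2 + δ)).card : ℝ) ≤
        2 * (X : ℝ) ^ (-(δ / 2)) * (a : ℝ) ^ k := by
  obtain ⟨W, hW, H⟩ := fineAt_tr δ hδ hδ1 a b L hb hL
  refine ⟨W, hW, fun κ hκ => ?_⟩
  obtain ⟨X₀, J⟩ := H κ hκ
  refine ⟨X₀, fun X hX k S τ o hTr left s c => ?_⟩
  have ha : 0 < a := by
    have := two_le hTr s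
    omega
  obtain ⟨h1, h2⟩ := (J X hX k S τ o hTr left s c).two_count PrimeOrder order_per order_few
  constructor
  · intro A
    refine card_of_mostly ha (h1 A) (R := fun n : ℤ => ∀ x : ℕ, X ≤ x → x ^ W ≤ b ^ k → ∀ t : ℕ, t ≤ x →
      |(koblitz A n t x : ℝ) - model A t x| ≤ (x : ℝ) ^ (1 / 2 + δ)) ?_
    intro n hn x hXx hxW t ht
    rw [koblitz_eq, model_eq]
    exact (hn x hXx hxW).1 t ht
  · refine card_of_mostly ha h2 (R := fun n : ℤ => ∀ x : ℕ, X ≤ x → x ^ W ≤ b ^ k → ∀ t : ℕ, t ≤ x →
      |model n t x - modelPairs t x| ≤ (x : ℝ) ^ (1 / 2 + δ)) ?_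
    intro n hn x hXx hxW t ht
    rw [model_eq, modelPairs_eq]
    exact (hn x hXx hxW).1 t ht

end Pool.Agent.Results.MP_b89fd0_nt.TransducerFamilies
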