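import Pool.Agent.Run7.h844.RP.PwE2
import Pool.Agent.Run7.h844.RP.PwG

/-!
# Koblitz counts for almost all curves `y² = x³ + a x + n` with coefficients from the values of generalised polynomials at primes

From `Pool.Agent.W263.BSD` (file `Pool/Agent/W263/BSD/Defs.lean`): `pointCount a b p` is the number of the solutions of
`y² = x³ + a x + b` modulo `p`, `GoodPrime a b p`: `p` is a prime which does not divide `2 (4 a³ + 27 b²)`.

Method: exponential sums over primes with the phase of a generalised polynomial: derivative bounds uniform in the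
coefficients, van der Corput differencing of all orders, bilinear sums, Vaughan's identity (after `Pool.Agent.H895R3.NK`,
`Pool.Agent.H373R2.T7`), with a power saving at all frequencies up to a power, and a discrete Fejér kernel for the passage to
the integer parts (library `Pool.Agent.Run7.h844.RP`). The passage from such exponential sums to sums over primes of
functions of residues, for almost all members, is from the starting files (`Pool.Agent.R459.Eq`).
-/

set_option autoImplicit false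

namespace Pool.Agent.Results.MP_b89fd0_nt.ValuesAtPrimes

open Finset Filter Pool.Agent.R459.Eq
open Pool.Agent.W263.BSD (GoodPrime pointCount)

/-- The generalised polynomial `∑ a x * t ^ x`, `x ∈ F`, with real exponents and coefficients. -/
noncomputable def genPoly (F : Finset ℝ) (a : ℝ → ℝ) (t : ℝ) : ℝ := ∑ x ∈ F, a x * t ^ x

/-- `c` is the largest exponent; it is positive and not an integer, and its coefficient is not zero. -/
def Leading (F : Finset ℝ) (a : ℝ → ℝ) (c : ℝ) : Prop :=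
  c ∈ F ∧ (∀ x ∈ F, x ≤ c) ∧ 0 < c ∧ (∀ m : ℕ, c ≠ m) ∧ a c ≠ 0

open Classical in
/-- Almost all the integers `n = c₀ + κ ⌊g(q) + z⌋`, where `N < q ≤ 2 N` is prime, up to a proportion of at most `τ` of these
primes `q`, have the property `P`. -/
def Almost (g : ℝ → ℝ) (N : ℕ) (z : ℝ) (κ c₀ : ℤ) (τ : ℝ) (P : ℤ → Prop) : Prop :=
  (((Ioc N (2 * N)).filter (fun q : ℕ => q.Prime ∧ ¬ P (c₀ + κ * ⌊g q + z⌋))).card : ℝ) ≤
    τ * ((Ioc N (2 * N)).filter Nat.Prime).card

lemma almost_of {F : Finset ℝ} {b : ℝ → ℝ} {N : ℕ} {z : ℝ} {κ c₀ : ℤ} {τ : ℝ} {P Q : ℤ → Prop}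
    (h : Pool.Agent.Run7.h844.RP.AlmostI (Pool.Agent.Run7.h844.RP.PB N) (Pool.Agent.Run7.h844.RP.vz F b z) κ c₀ τ P)
    (hPQ : ∀ n, P n → Q n) : Almost (genPoly F b) N z κ c₀ τ Q := by
  have h1 := Pool.Agent.Run7.h844.RP.AlmostI.mono h hPQ
  unfold Pool.Agent.Run7.h844.RP.AlmostI Pool.Agent.Run7.h844.RP.PB at h1
  rw [filter_filter] at h1
  unfold Almost
  convert h1
  rfl

/-- `p` is a prime of good reduction of `y² = x³ + a x + n`, and `#E(F_p) / t` is a prime. -/
def PrimeOrder (t p : ℕ) (a n : ℤ) : Prop := GoodPrime a n p ∧ ∃ q : ℕ, q.Prime ∧ pointCount a n p + 1 = t * q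

open Classical in
/-- The number `π_{E, t}(x)` of the primes `p ≤ x` of good reduction of `E : y² = x³ + a x + n` for which `#E(F_p) / t` is a prime. -/
noncomputable def koblitz (a n : ℤ) (t x : ℕ) : ℕ := ((range (x + 1)).filter (fun p => PrimeOrder t p a n)).card

open Classical in
/-- The sum over the primes `p ≤ x` of the proportion of the residues `ν` modulo `p` for which `p` is a prime of good reduction
of `y² = x³ + a x + ν` with `#E(F_p) / t` a prime. -/
noncomputable def model (a : ℤ) (t x : ℕ) : ℝ :=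
  ∑ p ∈ (range (x + 1)).filter Nat.Prime, (((range p).filter (fun ν : ℕ => PrimeOrder t p a ν)).card : ℝ) / p

lemma pri_eq (x : ℕ) [DecidablePred Nat.Prime] : (range (x + 1)).filter Nat.Prime = pri x := by
  unfold pri
  congr!

lemma koblitz_eq (a n : ℤ) (t x : ℕ) : koblitz a n t x = cntR (PrimeOrder t) a n x := by
  classical
  unfold koblitz cntR
  congr 1
  ext p
  simp only [mem_filter, mem_range, mem_pri]
  constructor
  · rintro ⟨h1, h2⟩
    exact ⟨⟨by omega, h2.1.1⟩, h2⟩
  · rintro ⟨h1, h2⟩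
    exact ⟨by omega, h2⟩

lemma model_eq (a : ℤ) (t x : ℕ) : model a t x = ∑ p ∈ pri x, Pool.Agent.R459.Eq.dens (PrimeOrder t) a p := by
  classical
  unfold model Pool.Agent.R459.Eq.dens
  rw [pri_eq]

lemma order_per (t p : ℕ) (hp : p.Prime) (a a' n n' : ℤ) (h : (p : ℤ) ∣ a - a') (h' : (p : ℤ) ∣ n - n') :
    PrimeOrder t p a n ↔ PrimeOrder t p a' n' := by
  have e1 : ((a : ℤ) : ZMod p) = ((a' : ℤ) : ZMod p) := by
    rw [← sub_eq_zero, ← Int.cast_sub, ZMod.intCast_zmod_eq_zero_iff_dvd]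
    exact h
  have e2 : ((n : ℤ) : ZMod p) = ((n' : ℤ) : ZMod p) := by
    rw [← sub_eq_zero, ← Int.cast_sub, ZMod.intCast_zmod_eq_zero_iff_dvd]
    exact h'
  have h1 : GoodPrime a n p ↔ GoodPrime a' n' p := by
    unfold GoodPrime
    rw [← ZMod.intCast_zmod_eq_zero_iff_dvd, ← ZMod.intCast_zmod_eq_zero_iff_dvd]
    push_cast
    rw [e1, e2]
  have h2 : pointCount a n p = pointCount a' n' p := by
    unfold pointCount
    rw [e1, e2]
  unfold PrimeOrder
  rw [h1, h2]

lemma order_few (p : ℕ) (hp : p.Prime) (a n : ℤ) (Q : Finset ℕ) (hQ : ∀ j ∈ Q, PrimeOrder j p a n) : Q.card ≤ Nat.log 2 p + 3 := by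
  rcases Q.eq_empty_or_nonempty with h | ⟨j₀, hj₀⟩
  · rw [h, card_empty]
    omega
  have hgood := (hQ j₀ hj₀).1
  obtain ⟨m, hm⟩ : ∃ m, m = pointCount a n p + 1 := ⟨_, rfl⟩
  have hm4 : m ≤ 4 * p := by
    haveI : Fact p.Prime := ⟨hp⟩
    have hp2 : p ≠ 2 := by
      intro h2
      apply hgood.2
      rw [h2]
      exact Dvd.intro _ rfl
    have h1 := Pool.Agent.R459.Bsd.pc_eq hp2 a n
    have h2 := Pool.Agent.R459.Bsd.tr_abs hp2 (a : ZMod p) (n : ZMod p)
    rw [← h1] at h2
    rw [abs_le] at h2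
    have hp1 : (1 : ℝ) ≤ p := by exact_mod_cast hp.one_le
    have h3 : √(p : ℝ) ≤ p := by
      rw [Real.sqrt_le_left (by linarith)]
      nlinarith
    have h4 : (m : ℝ) ≤ 4 * p := by
      rw [hm]
      push_cast
      linarith [h2.1]
    exact_mod_cast h4
  have hm1 : m ≠ 0 := by omega
  have h1 : Q.card ≤ m.primeFactors.card := by
    apply card_le_card_of_injOn (fun j => m / j)
    · intro j hj
      obtain ⟨q, hq, hjq⟩ := (hQ j (mem_coe.1 hj)).2
      rw [← hm] at hjq
      have hj0 : 0 < j := Nat.pos_of_ne_zero (by rintro rfl; omega)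
      have e : m / j = q := by rw [hjq]; exact Nat.mul_div_cancel_left q hj0
      simp only [mem_coe, Nat.mem_primeFactors, ne_eq]
      rw [e]
      exact ⟨hq, ⟨j, by rw [hjq]; ring⟩, hm1⟩
    · intro j hj j' hj' h
      obtain ⟨q, hq, hjq⟩ := (hQ j (mem_coe.1 hj)).2
      obtain ⟨q', hq', hjq'⟩ := (hQ j' (mem_coe.1 hj')).2
      rw [← hm] at hjq hjq'
      have hj0 : 0 < j := Nat.pos_of_ne_zero (by rintro rfl; omega)
      have hj0' : 0 < j' := Nat.pos_of_ne_zero (by rintro rfl; omega)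
      have e : m / j = q := by rw [hjq]; exact Nat.mul_div_cancel_left q hj0
      have e' : m / j' = q' := by rw [hjq']; exact Nat.mul_div_cancel_left q' hj0'
      simp only at h
      rw [e, e'] at h
      rw [h] at hjq
      rw [hjq] at hjq'
      exact Nat.eq_of_mul_eq_mul_right hq'.pos hjq'
  have h2 : 2 ^ m.primeFactors.card ≤ m := by
    calc 2 ^ m.primeFactors.card ≤ ∏ q ∈ m.primeFactors, q :=
          Finset.pow_card_le_prod _ _ _ fun q hq => (Nat.prime_of_mem_primeFactors hq).two_le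
      _ ≤ m := Nat.le_of_dvd (by omega) (Nat.prod_primeFactors_dvd m)
  have h3 : m.primeFactors.card ≤ Nat.log 2 m := Nat.le_log_of_pow_le (by norm_num) h2
  have h4 : Nat.log 2 m ≤ Nat.log 2 p + 2 := by
    calc Nat.log 2 m ≤ Nat.log 2 (p * 2 * 2) := Nat.log_mono_right (by omega)
      _ = Nat.log 2 p + 2 := by
        rw [Nat.log_mul_base (by norm_num) (by have := hp.pos; omega), Nat.log_mul_base (by norm_num) hp.ne_zero]
  omega

/-- Let `g(t) = ∑ b x t ^ x` be a generalised polynomial whose largest exponent `c` is positive and not an integer, and let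
`0 < δ ≤ 1 / 2`. There is `θ > 0` such that for all `κ ≠ 0` and all sufficiently large `X` and `N` the following holds for all
real numbers `z`, all integers `c₀` and EVERY integer `a`.

Almost all the integers `n = c₀ + κ ⌊g(q) + z⌋`, where `q` runs over the primes `N < q ≤ 2 N`, up to a proportion of at most
`2 X ^ (- δ / 2)` of the `q`, have for ALL `x` with `X ≤ x ≤ N ^ θ` and ALL `t ≤ x`: the number of the primes `p ≤ x` of good
reduction of `E : y² = x³ + a x + n` with `#E(F_p) / t` prime differs from the sum over `p ≤ x` of the proportion of the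
residues `ν` modulo `p` such that `y² = x³ + a x + ν` has this property by at most `x ^ (1 / 2 + δ)`. -/
theorem result (F : Finset ℝ) (b : ℝ → ℝ) (c : ℝ) (hF : Leading F b c) :
    ∀ δ : ℝ, 0 < δ → δ ≤ 1 / 2 → ∃ θ : ℝ, 0 < θ ∧ ∀ κ : ℤ, κ ≠ 0 → ∃ X₀ : ℕ, ∀ X N : ℕ, X₀ ≤ X → X₀ ≤ N →
      ∀ (z : ℝ) (c₀ a : ℤ), Almost (genPoly F b) N z κ c₀ (2 * (X : ℝ) ^ (-(δ / 2))) (fun n =>
        ∀ x : ℕ, X ≤ x → (x : ℝ) ≤ (N : ℝ) ^ θ → ∀ t : ℕ, t ≤ x →
          |(koblitz a n t x : ℝ) - model a t x| ≤ (x : ℝ) ^ (1 / 2 + δ)) := by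
  intro δ hδ hδ1
  obtain ⟨β, hβ, _, N₀, hfam⟩ := Pool.Agent.Run7.h844.RP.primes_fam F c hF.1 hF.2.2.2.1 hF.2.2.1 hF.2.1 b hF.2.2.2.2
  obtain ⟨W, hW, H⟩ := Pool.Agent.Run7.h844.RP.ip_two_count δ hδ hδ1
  have hW0 : (0 : ℝ) < W := by exact_mod_cast hW
  refine ⟨β / W, by positivity, fun κ hκ => ?_⟩
  obtain ⟨X₀, J⟩ := H κ hκ
  refine ⟨X₀ + N₀, fun X N hX hN z c₀ a => ?_⟩
  obtain ⟨h1, -⟩ := J X (by omega) ℕ _ _ _ (hfam N (by omega) z) c₀ PrimeOrder order_per order_few
  refine almost_of (h1 a) ?_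
  intro n hn x hXx hxN t ht
  rw [koblitz_eq, model_eq]
  exact (hn x hXx (Pool.Agent.Run7.h844.RP.le_pow_of hW hxN)).1 t ht

end Pool.Agent.Results.MP_b89fd0_nt.ValuesAtPrimes
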